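import Pool.Agent.H57.EM.Defs
import Pool.Agent.H57.GD.Defs

/-!
# Étale motivic cohomology of arithmetic schemes, and graph hypersurfaces: definitions
-/

set_option autoImplicit false

open CategoryTheory AlgebraicGeometry Pool.Agent.Y116.UV Pool.Agent.H91.QW Pool.Agent.H57.GH
  Pool.Agent.H57.GD

namespace Pool.Agent.H57.GE

/-- The complements over `ℤ` of the graph hypersurfaces of the finite graphs all of whose vertices have
degree at most three. -/
def graphComplements : Set (Sch ℤ) :=
  {Y | ∃ (V : Type) (_ : Finite V) (G : SimpleGraph V), MaxThree G ∧ Y = graphS ℤ G}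

/-- The graph hypersurfaces over `ℤ` of the finite graphs all of whose vertices have degree at most
three. -/
def graphHypersurfaces : Set (Sch ℤ) :=
  {Y | ∃ (V : Type) (_ : Finite V) (G : SimpleGraph V), MaxThree G ∧ Y = hypS ℤ G}

end Pool.Agent.H57.GE
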